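import Mathlib
import Pool.Agent.H54.G.W369.RK.GLa

set_option autoImplicit false

/-!
# Transitivity on the places above `p`
-/

namespace Pool.Agent.W369.RK

open IntermediateField Module NumberField IsDedekindDomain
open Pool.Agent.H58P (Qb ht qb_isIntegral)
open Pool.Agent.W237.RK

lemma val_le_one (V : ValuationSubring Qb) (x : Qb) (hx : IsIntegral ℤ x) :
    V.valuation x ≤ 1 := by
  rw [ValuationSubring.valuation_le_one_iff]
  have h3 : IsIntegral V x := hx.tower_top
  obtain ⟨z, hz⟩ := IsIntegrallyClosed.isIntegral_iff.mp h3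
  have h4 : (z : Qb) = x := hz
  rw [← h4]
  exact z.2

lemma val_int (M : GF) [NumberField M] (V : ValuationSubring Qb) (a : 𝓞 M) :
    V.valuation ((a : M) : Qb) ≤ 1 :=
  val_le_one V _ ((a.isIntegral_coe).map ((algebraMap M Qb).toIntAlgHom))

/-- the prime ideal under `V` -/
noncomputable def pr (M : GF) [NumberField M]
    (V : ValuationSubring Qb) (p : ℕ) (hp : p.Prime) (hV : V.valuation (p : Qb) < 1) :
    HeightOneSpectrum (𝓞 M) where
  asIdeal :=
    { carrier := {y | V.valuation (((y : 𝓞 M) : M) : Qb) < 1}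
      add_mem' := by
        intro a b ha hb
        show V.valuation ((((a + b : 𝓞 M)) : M) : Qb) < 1
        have e : ((((a + b : 𝓞 M)) : M) : Qb) = ((a : M) : Qb) + ((b : M) : Qb) := rfl
        rw [e]
        exact Valuation.map_add_lt _ ha hb
      zero_mem' := by
        show V.valuation ((((0 : 𝓞 M)) : M) : Qb) < 1
        have e : ((((0 : 𝓞 M)) : M) : Qb) = 0 := rfl
        rw [e, map_zero]
        exact zero_lt_one
      smul_mem' := by
        intro a b hb
        show V.valuation ((((a * b : 𝓞 M)) : M) : Qb) < 1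
        have e : ((((a * b : 𝓞 M)) : M) : Qb) = ((a : M) : Qb) * ((b : M) : Qb) := rfl
        rw [e, map_mul]
        rw [mul_comm]
        exact mul_lt_one_of_lt_of_le hb (val_int M V a) }
  isPrime := by
    constructor
    · rw [Ne, Ideal.eq_top_iff_one]
      intro h
      have h1 : V.valuation ((((1 : 𝓞 M)) : M) : Qb) < 1 := h
      have e : ((((1 : 𝓞 M)) : M) : Qb) = 1 := rfl
      rw [e, map_one] at h1
      exact lt_irrefl _ h1
    · intro a b hab
      have h1 : V.valuation ((((a * b : 𝓞 M)) : M) : Qb) < 1 := hab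
      have e : ((((a * b : 𝓞 M)) : M) : Qb) = ((a : M) : Qb) * ((b : M) : Qb) := rfl
      rw [e, map_mul] at h1
      by_cases ha1 : V.valuation ((a : M) : Qb) < 1
      · exact Or.inl ha1
      · right
        have ha2 : V.valuation ((a : M) : Qb) = 1 := le_antisymm (val_int M V a) (not_lt.mp ha1)
        rw [ha2, one_mul] at h1
        exact h1
  ne_bot := by
    intro h
    have h1 : ((p : 𝓞 M)) ∈ (⊥ : Ideal (𝓞 M)) := by
      rw [← h]
      show V.valuation ((((p : 𝓞 M)) : M) : Qb) < 1
      have e : ((((p : 𝓞 M)) : M) : Qb) = (p : Qb) := by simp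
      rw [e]
      exact hV
    rw [Ideal.mem_bot] at h1
    have h2 : (p : 𝓞 M) ≠ 0 := by exact_mod_cast hp.ne_zero
    exact h2 h1

lemma mem_pr (M : GF) [NumberField M]
    (V : ValuationSubring Qb) (p : ℕ) (hp : p.Prime) (hV : V.valuation (p : Qb) < 1) (y : 𝓞 M) :
    y ∈ (pr M V p hp hV).asIdeal ↔ V.valuation (((y : 𝓞 M) : M) : Qb) < 1 := Iff.rfl

lemma pr_under (M : GF) [NumberField M]
    (V : ValuationSubring Qb) (p : ℕ) (hp : p.Prime) (hV : V.valuation (p : Qb) < 1) :
    (pr M V p hp hV).asIdeal.under ℤ = Ideal.span {(p : ℤ)} := by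
  have hP := (pr M V p hp hV).isPrime
  have hmax : (Ideal.span {(p : ℤ)}).IsMaximal :=
    PrincipalIdealRing.isMaximal_of_irreducible (Nat.prime_iff_prime_int.mp hp).irreducible
  symm
  apply hmax.eq_of_le
  · exact Ideal.IsPrime.ne_top inferInstance
  · rw [Ideal.span_singleton_le_iff_mem, Ideal.mem_under, mem_pr]
    have e : (((algebraMap ℤ (𝓞 M) (p : ℤ) : 𝓞 M) : M) : Qb) = (p : Qb) := by simp
    rw [e]
    exact hV

/-- two valuation subrings above `p` are conjugate on a normal number field -/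
lemma conj_aux (M : GF) [NumberField M] (hM : ∀ σ : Aut, ∀ x ∈ M, σ x ∈ M)
    (V W : ValuationSubring Qb) (p : ℕ) (hp : p.Prime) (hV : V.valuation (p : Qb) < 1)
    (hW : W.valuation (p : Qb) < 1) :
    ∃ τ : Aut, ∀ x ∈ M, (x ∈ V ↔ τ x ∈ W) := by
  have hn := normal_of_stable M hM
  have hgal : IsGalois ℚ M := ⟨⟩
  have hP := (pr M V p hp hV).isPrime
  have hQ := (pr M W p hp hW).isPrime
  obtain ⟨g, hg⟩ := Algebra.IsInvariant.exists_smul_of_under_eq ℤ (𝓞 M) (M ≃ₐ[ℚ] M)
    (pr M V p hp hV).asIdeal (pr M W p hp hW).asIdeal (by rw [pr_under, pr_under])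
  obtain ⟨τ, hτ⟩ := exists_lift M g
  have hcoe : ∀ y : 𝓞 M, (((g • y : 𝓞 M) : M) : Qb) = τ ((y : M) : Qb) := by
    intro y
    rw [hτ]
    rfl
  have hlt : ∀ y : 𝓞 M, V.valuation ((y : M) : Qb) < 1 ↔ W.valuation (τ ((y : M) : Qb)) < 1 := by
    intro y
    rw [← hcoe, ← mem_pr M W p hp hW, hg, Ideal.smul_mem_pointwise_smul_iff, mem_pr]
  have heq : ∀ y : 𝓞 M, V.valuation ((y : M) : Qb) = 1 ↔ W.valuation (τ ((y : M) : Qb)) = 1 := by
    intro y
    have h1 := val_int M V y
    have h2 := val_int M W (g • y)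
    rw [hcoe] at h2
    constructor
    · intro h
      apply le_antisymm h2
      rw [← not_lt, ← hlt, h]
      exact lt_irrefl _
    · intro h
      apply le_antisymm h1
      rw [← not_lt, hlt, h]
      exact lt_irrefl _
  refine ⟨τ, fun x hx => ?_⟩
  rw [← ValuationSubring.valuation_le_one_iff, ← ValuationSubring.valuation_le_one_iff]
  obtain ⟨n, d, h⟩ := (pr M V p hp hV).exists_primeCompl_mul_eq_or_mul_eq (⟨x, hx⟩ : M)
  have hd : V.valuation (((d : 𝓞 M) : M) : Qb) = 1 := by
    apply le_antisymm (val_int M V d)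
    rw [← not_lt]
    exact d.2
  have hd' := (heq d).mp hd
  have hτn : W.valuation (τ ((n : M) : Qb)) ≤ 1 := by
    have := val_int M W (g • n)
    rwa [hcoe] at this
  rcases h with h | h
  · have h1 : x * (((d : 𝓞 M) : M) : Qb) = ((n : M) : Qb) := congrArg (fun z : M => (z : Qb)) h
    have h2 : V.valuation x = V.valuation ((n : M) : Qb) := by
      rw [← h1, map_mul, hd, mul_one]
    have h3 : W.valuation (τ x) = W.valuation (τ ((n : M) : Qb)) := by
      rw [← h1, map_mul, map_mul, hd', mul_one]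
    rw [h2, h3]
    exact ⟨fun _ => hτn, fun _ => val_int M V n⟩
  · have h1 : x * ((n : M) : Qb) = (((d : 𝓞 M) : M) : Qb) := congrArg (fun z : M => (z : Qb)) h
    have h2 : V.valuation x * V.valuation ((n : M) : Qb) = 1 := by
      rw [← map_mul, h1, hd]
    have h3 : W.valuation (τ x) * W.valuation (τ ((n : M) : Qb)) = 1 := by
      rw [← map_mul, ← map_mul, h1, hd']
    have key : ∀ (U : ValuationSubring Qb) (a b : U.ValueGroup), a * b = 1 → b ≤ 1 →
        (a ≤ 1 ↔ b = 1) := by
      intro U a b hab hb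
      constructor
      · intro ha
        by_contra hne
        have hb' : b < 1 := lt_of_le_of_ne hb hne
        have : a * b < 1 := by
          rw [mul_comm]
          exact mul_lt_one_of_lt_of_le hb' ha
        rw [hab] at this
        exact lt_irrefl _ this
      · intro hb'
        rw [hb', mul_one] at hab
        exact hab.le
    rw [key V _ _ h2 (val_int M V n), key W _ _ h3 hτn, heq]

theorem conj : S_CONJ := by
  intro p hp φ M hMfd hM V hV
  have hNF : NumberField M :=
    { to_charZero := inferInstance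
      to_finiteDimensional := hMfd }
  have hp1 : (1 : ℝ) < p := by exact_mod_cast hp.out.one_lt
  let W : ValuationSubring Qb :=
    { carrier := {z | ‖φ z‖ ≤ 1}
      mul_mem' := fun {a b} ha hb => by
        show ‖φ (a * b)‖ ≤ 1
        rw [map_mul, norm_mul]
        exact mul_le_one₀ ha (norm_nonneg _) hb
      one_mem' := by
        show ‖φ 1‖ ≤ 1
        rw [map_one, norm_one]
      add_mem' := fun {a b} ha hb => by
        show ‖φ (a + b)‖ ≤ 1
        rw [map_add]
        exact (PadicAlgCl.isNonarchimedean p _ _).trans (max_le ha hb)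
      zero_mem' := by
        show ‖φ 0‖ ≤ 1
        rw [map_zero, norm_zero]
        exact zero_le_one
      neg_mem' := fun {a} ha => by
        show ‖φ (-a)‖ ≤ 1
        rw [map_neg, norm_neg]
        exact ha
      mem_or_inv_mem' := fun a => by
        by_cases h : ‖φ a‖ ≤ 1
        · exact Or.inl h
        · right
          show ‖φ a⁻¹‖ ≤ 1
          rw [map_inv₀, norm_inv]
          exact inv_le_one_of_one_le₀ (le_of_lt (not_le.mp h)) }
  have hWmem : ∀ x : Qb, x ∈ W ↔ ‖φ x‖ ≤ 1 := fun x => Iff.rfl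
  have hpnorm : ‖φ (p : Qb)‖ = (p : ℝ)⁻¹ := by
    rw [map_natCast]
    have h1 : ((p : ℕ) : PadicAlgCl p) = ((p : ℚ_[p]) : PadicAlgCl p) := by
      rw [map_natCast]
    rw [h1, PadicAlgCl.norm_extends, Padic.norm_p]
  have hW : W.valuation (p : Qb) < 1 := by
    have hle : W.valuation (p : Qb) ≤ 1 := by
      rw [ValuationSubring.valuation_le_one_iff, hWmem, hpnorm]
      exact inv_le_one_of_one_le₀ hp1.le
    refine lt_of_le_of_ne hle fun h => ?_
    have h1 : W.valuation ((p : Qb)⁻¹) ≤ 1 := by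
      rw [map_inv₀, h, inv_one]
    rw [ValuationSubring.valuation_le_one_iff, hWmem, map_inv₀, norm_inv, hpnorm, inv_inv] at h1
    linarith
  obtain ⟨τ, hτ⟩ := conj_aux M hM V W p hp.out hV hW
  exact ⟨τ, fun x hx => by rw [hτ x hx, hWmem]⟩

end Pool.Agent.W369.RK
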