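import Mathlib
import Pool.Agent.H54.G.W369.RK.GLa

set_option autoImplicit false

/-!
# The descent step
-/

namespace Pool.Agent.W369.RK

open Polynomial IntermediateField Module
open Pool.Agent.H58P (Qb ht qb_isIntegral)
open Pool.Agent.W237.RK

lemma prod_le_of_one {ι : Type*} [DecidableEq ι] (s : Finset ι) (a b : ι → ℝ) (δ : ℝ)
    (h0 : ∀ i ∈ s, 0 ≤ a i) (hab : ∀ i ∈ s, a i ≤ b i) (i₀ : ι) (hi₀ : i₀ ∈ s)
    (hδ0 : 0 ≤ δ) (h : a i₀ ≤ δ * b i₀) : ∏ i ∈ s, a i ≤ δ * ∏ i ∈ s, b i := by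
  rw [← Finset.mul_prod_erase s a hi₀, ← Finset.mul_prod_erase s b hi₀, ← mul_assoc]
  have hb : 0 ≤ b i₀ := (h0 i₀ hi₀).trans (hab i₀ hi₀)
  apply mul_le_mul h _ _ (mul_nonneg hδ0 hb)
  · apply Finset.prod_le_prod
    · intro i hi
      exact h0 i (Finset.mem_of_mem_erase hi)
    · intro i hi
      exact hab i (Finset.mem_of_mem_erase hi)
  · apply Finset.prod_nonneg
    intro i hi
    exact h0 i (Finset.mem_of_mem_erase hi)

lemma um_sub (p : ℕ) [Fact p.Prime] (a b : PadicAlgCl p) : ‖a - b‖ ≤ max ‖a‖ ‖b‖ := by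
  have h := PadicAlgCl.isNonarchimedean p a (-b)
  rwa [norm_neg, ← sub_eq_add_neg] at h

/-- the local part: for a conjugating automorphism some conjugate is close -/
lemma local_part (p : ℕ) [Fact p.Prime] (φ : Qb →+* PadicAlgCl p) (hroots : S_ROOTS)
    (E : GF) (B D : ℕ) (δ : ℝ) (hδ0 : 0 < δ) (hδ1 : δ < 1) (hB : 0 < B)
    (hδ : δ ^ (2 * B * D) = (p : ℝ)⁻¹)
    (σ₀ σ t : Aut) (β : Qb) (hβ : β ≠ 0) (htE : ∀ x ∈ E, t x ∈ E) (hgap : Gap p φ E σ₀ B)
    (hag : AgreeOn E (t⁻¹ * σ₀ * t) σ) (hD : (orb E β).ncard ≤ D) :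
    ∃ ρ : Aut, Fix E ρ ∧ ‖φ (t (σ (ρ β))) / φ (t β) - 1‖ < δ := by
  have hint : IsIntegral E β := (qb_isIntegral β).tower_top
  set f : E[X] := minpoly E β with hf
  have hfm : f.Monic := minpoly.monic hint
  have hdpos : 0 < f.natDegree := minpoly.natDegree_pos hint
  have hdD : f.natDegree ≤ D := (natDegree_le_orb E β).trans hD
  have hDpos : 0 < D := hdpos.trans_le hdD
  set h1 : E →+* PadicAlgCl p := (φ.comp (t : Qb →+* Qb)).comp (algebraMap E Qb) with hh1
  set h2 : E →+* PadicAlgCl p := (φ.comp ((t : Qb →+* Qb).comp (σ : Qb →+* Qb))).comp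
    (algebraMap E Qb) with hh2
  have hε : δ ^ (2 * D) < δ ^ f.natDegree := by
    apply pow_lt_pow_right_of_lt_one₀ hδ0 hδ1
    omega
  have hinvB : ((δ ^ (2 * D)) : ℝ) ^ B = (p : ℝ)⁻¹ := by
    rw [← pow_mul, ← hδ]
    congr 1
    ring
  obtain ⟨b, hb, hbδ⟩ := hroots p f.natDegree (f.map h1) (f.map h2) δ (δ ^ (2 * D))
    (hfm.map _) (hfm.map _) (hfm.natDegree_map _) (hfm.natDegree_map _) hδ0 hδ1.le
    (by positivity) hε (by
      intro l
      rw [coeff_map, coeff_map]
      set x : Qb := t (f.coeff l : Qb) with hx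
      have e1 : h1 (f.coeff l) = φ x := rfl
      have e2 : h2 (f.coeff l) = φ (σ₀ x) := by
        have h3 := hag (f.coeff l : Qb) (f.coeff l).2
        have h4 : σ₀ x = t (σ (f.coeff l : Qb)) := by
          rw [← h3]
          show σ₀ (t (f.coeff l : Qb)) = (t * (t⁻¹ * σ₀ * t)) (f.coeff l : Qb)
          have : t * (t⁻¹ * σ₀ * t) = σ₀ * t := by group
          rw [this]
          rfl
        rw [h4]
        rfl
      rw [e1, e2]
      by_cases hx0 : x = 0
      · rw [hx0]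
        simp
      · have hxE : x ∈ E := htE _ (f.coeff l).2
        have hg := hgap x hxE hx0
        rw [← hinvB] at hg
        have hg' : ‖φ (σ₀ x / x - 1)‖ ≤ δ ^ (2 * D) :=
          le_of_pow_le_pow_left₀ hB.ne' (by positivity) hg
        have e3 : φ x - φ (σ₀ x) = -(φ (σ₀ x / x - 1) * φ x) := by
          rw [← map_mul, ← map_neg, ← map_sub]
          congr 1
          field_simp
          ring
        rw [e3, norm_neg, norm_mul]
        exact mul_le_mul_of_nonneg_right hg' (norm_nonneg _))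
    (φ (t β)) (by
      intro h0
      apply hβ
      rw [map_eq_zero] at h0
      rwa [map_eq_zero_iff t t.injective] at h0) (by
      rw [eval_map]
      have h3 : eval₂ h1 (φ (t β)) f = φ (t (aeval β f)) := by
        rw [aeval_def]
        have h4 := Polynomial.hom_eval₂ f (algebraMap E Qb) (φ.comp (t : Qb →+* Qb)) β
        exact h4.symm
      rw [h3, minpoly.aeval, map_zero, map_zero])
  -- identify the root `b`
  have hsplit : (f.map (algebraMap E Qb)).Splits := IsAlgClosed.splits _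
  set f' : Qb[X] := f.map (algebraMap E Qb) with hf'
  have hprod : f' = (f'.roots.map (fun x => X - C x)).prod := by
    have h3 := hsplit.eq_prod_roots_of_monic (hfm.map _)
    exact h3
  have hG : f.map h2 = f'.map (φ.comp ((t : Qb →+* Qb).comp (σ : Qb →+* Qb))) := by
    rw [hf', Polynomial.map_map]
  rw [hG, hprod, Polynomial.map_multiset_prod, Multiset.map_map] at hb
  rw [eval_multiset_prod, Multiset.map_map, Multiset.prod_eq_zero_iff, Multiset.mem_map] at hb
  obtain ⟨x, hx, hxb⟩ := hb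
  have hxb' : b = φ (t (σ x)) := by
    simp only [Function.comp_apply, Polynomial.map_sub, map_X, map_C, eval_sub, eval_X,
      eval_C] at hxb
    exact sub_eq_zero.mp hxb
  have hxr : aeval x f = 0 := by
    rw [mem_roots'] at hx
    have := hx.2
    rwa [IsRoot, hf', eval_map_algebraMap] at this
  obtain ⟨ρ, hρ, hρβ⟩ := mem_orb_of_root E β x hxr
  refine ⟨ρ, hρ, ?_⟩
  rw [hρβ, ← hxb']
  exact hbδ

theorem gl : S_ROOTS → S_POW → S_HT → S_GL := by
  intro hroots hpow hht p hp φ κ m D B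
  classical
  have hp2 : 2 ≤ p := hp.out.two_le
  have hp1 : (1 : ℝ) < p := by exact_mod_cast hp.out.one_lt
  have hlogp : 0 < Real.log p := Real.log_pos hp1
  have hlog2 : 0 < Real.log 2 := Real.log_pos (by norm_num)
  obtain ⟨C, hC⟩ := hpow p (2 * B * D)
  obtain ⟨N, hN⟩ := exists_nat_gt ((κ * m : ℕ) * (D * (1 + Real.log 2)) / Real.log p)
  rw [div_lt_iff₀ hlogp] at hN
  set k := C + N with hk
  set c : ℝ := ((p : ℝ) ^ k)⁻¹ with hc
  refine ⟨k, c, by positivity, ?_⟩
  intro K E σ₀ σ β S hKfd hKκ hEfd hKE hNE hσ₀K hσK hgap hSm hS hσ hβ hD hht'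
  by_contra hcon
  push Not at hcon
  -- `B` is positive
  have hB : 0 < B := by
    rcases Nat.eq_zero_or_pos B with h0 | h0
    · exfalso
      have := hgap 1 (one_mem E) one_ne_zero
      rw [h0, pow_zero] at this
      have h1 : (p : ℝ)⁻¹ < 1 := inv_lt_one_of_one_lt₀ hp1
      linarith
    · exact h0
  have horb := orb_finite E β
  have hβorb : β ∈ orb E β := ⟨1, fun x _ => rfl, rfl⟩
  have hDpos : 0 < D := by
    refine lt_of_lt_of_le ?_ hD
    rw [Set.ncard_pos horb]
    exact ⟨β, hβorb⟩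
  -- the number `δ`
  obtain ⟨δ, hδ0, hδ1, hδ⟩ : ∃ δ : ℝ, 0 < δ ∧ δ < 1 ∧ δ ^ (2 * B * D) = (p : ℝ)⁻¹ := by
    have hn : (2 * B * D) ≠ 0 := by positivity
    refine ⟨((p : ℝ)⁻¹) ^ ((1 : ℝ) / (2 * B * D : ℕ)), by positivity, ?_, ?_⟩
    · apply Real.rpow_lt_one (by positivity) (inv_lt_one_of_one_lt₀ hp1)
      positivity
    · rw [← Real.rpow_natCast, ← Real.rpow_mul (by positivity)]
      rw [one_div, inv_mul_cancel₀ (by exact_mod_cast hn), Real.rpow_one]
  -- the normal field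
  set Xs : Finset Qb := horb.toFinset.image σ with hXs
  have hXcard : Xs.card ≤ D := by
    refine Finset.card_image_le.trans ?_
    rwa [← Set.ncard_eq_toFinset_card _ horb]
  obtain ⟨M, hMfd, hEM, hsM, hM⟩ := exists_nf_normal E ((Xs : Set Qb) ∪ {β})
    (Xs.finite_toSet.union (Set.finite_singleton β))
  have hβM : β ∈ M := hsM (Or.inr rfl)
  have hXM : ∀ x ∈ Xs, x ∈ M := fun x hx => hsM (Or.inl hx)
  obtain ⟨T, hT, hTcard⟩ := count K E M hKE hEM hM hNE σ₀ σ S m κ hSm hS hσ hKκ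
  set e := Xs.equivFin.symm with he
  -- the vectors
  set u : Fin Xs.card → M := fun s => ⟨((e s : Qb) / β) ^ (p ^ k),
    pow_mem (div_mem (hXM _ (e s).2) hβM) _⟩ with hu
  have hXmem : ∀ x ∈ Xs, ∃ ρ : Aut, Fix E ρ ∧ x = σ (ρ β) := by
    intro x hx
    rw [hXs, Finset.mem_image] at hx
    obtain ⟨y, hy, rfl⟩ := hx
    rw [Set.Finite.mem_toFinset] at hy
    obtain ⟨ρ, hρ, rfl⟩ := hy
    exact ⟨ρ, hρ, rfl⟩
  have hlift : ∀ ρ : Aut, Fix E ρ → Fix K (σ * ρ) ∧ AgreeOn E (σ * ρ) σ := by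
    intro ρ hρ
    constructor
    · intro x hx
      show σ (ρ x) = x
      rw [hρ x (hKE hx), hσK x hx]
    · intro x hx
      show σ (ρ x) = σ x
      rw [hρ x hx]
  have hmain := hht p φ M hMfd hM Xs.card u (fun _ => 1) (by
    intro s hs
    obtain ⟨ρ, hρ, hρx⟩ := hXmem (e s) (e s).2
    obtain ⟨h1, h2⟩ := hlift ρ hρ
    apply hcon (σ * ρ) h1 h2
    have h3 : ((e s : Qb) / β) ^ (p ^ k) = 1 := congrArg Subtype.val hs
    rw [div_pow, div_eq_one_iff_eq (pow_ne_zero _ hβ)] at h3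
    rw [← h3, hρx]
    rfl) T (((p : ℝ) ^ N)⁻¹) (by positivity) (by
      apply inv_le_one_of_one_le₀
      exact one_le_pow₀ hp1.le) (by
      intro τ hτ
      obtain ⟨t, htK, ht, hag⟩ := hT τ hτ
      obtain ⟨ρ, hρ, hclose⟩ := local_part p φ hroots E B D δ hδ0 hδ1 hB hδ σ₀ σ t β hβ
        (hNE t htK) hgap hag hD
      set x := σ (ρ β) with hx
      have hxX : x ∈ Xs := by
        rw [hXs, Finset.mem_image]
        exact ⟨ρ β, by rw [Set.Finite.mem_toFinset]; exact ⟨ρ, hρ, rfl⟩, rfl⟩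
      set s₀ : Fin Xs.card := Xs.equivFin ⟨x, hxX⟩ with hs₀
      have hes₀ : (e s₀ : Qb) = x := by
        rw [hs₀, he, Equiv.symm_apply_apply]
      -- closeness of the power
      have hcl : ‖φ (t ((x / β) ^ (p ^ k))) - 1‖ ≤ ((p : ℝ) ^ N)⁻¹ := by
        have h1 := (hC k).1 (φ (t x) / φ (t β)) (by
          rw [← hδ]
          exact pow_le_pow_left₀ (norm_nonneg _) hclose.le _)
        rw [← map_div₀, ← map_div₀, ← map_pow, ← map_pow] at h1
        have h2 : (0 : ℝ) < (p : ℝ) ^ C := by positivity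
        have h3 : (0 : ℝ) < (p : ℝ) ^ N := by positivity
        have h4 : (p : ℝ) ^ k = (p : ℝ) ^ C * (p : ℝ) ^ N := by rw [hk, pow_add]
        rw [← one_div, le_div_iff₀ h3]
        rw [h4] at h1
        have h5 : (p : ℝ) ^ C * (‖φ (t ((x / β) ^ (p ^ k))) - 1‖ * (p : ℝ) ^ N) ≤
            (p : ℝ) ^ C * 1 := by
          rw [mul_one]
          calc _ = ‖φ (t ((x / β) ^ (p ^ k))) - 1‖ * ((p : ℝ) ^ C * (p : ℝ) ^ N) := by ring
            _ ≤ _ := h1
        exact le_of_mul_le_mul_left h5 h2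
      have hτu : ∀ s, ((τ (u s) : M) : Qb) = t (((e s : Qb) / β) ^ (p ^ k)) := by
        intro s
        rw [← ht (u s)]
      have hτ1 : ((τ ((fun _ => 1 : Fin Xs.card → M) s₀) : M) : Qb) = 1 := by
        show ((τ 1 : M) : Qb) = 1
        rw [map_one]
        rfl
      apply prod_le_of_one Finset.univ
        (fun s => ‖φ ((τ (u s) : M) - (τ ((fun _ => 1 : Fin Xs.card → M) s) : M) : Qb)‖)
        (fun s => (max 1 ‖φ (τ (u s) : M)‖ *
          max 1 ‖φ (τ ((fun _ => 1 : Fin Xs.card → M) s) : M)‖))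
        (((p : ℝ) ^ N)⁻¹) (fun i _ => norm_nonneg _) ?_ s₀ (Finset.mem_univ _) (by positivity) ?_
      · intro s _
        show ‖φ ((τ (u s) : M) - (τ ((fun _ => 1 : Fin Xs.card → M) s) : M) : Qb)‖ ≤ _
        rw [map_sub]
        refine (um_sub p _ _).trans ?_
        apply max_le
        · calc ‖φ (τ (u s) : M)‖ ≤ max 1 ‖φ (τ (u s) : M)‖ * 1 := by
                rw [mul_one]; exact le_max_right _ _
            _ ≤ _ := mul_le_mul_of_nonneg_left (le_max_left _ _)
                (zero_le_one.trans (le_max_left _ _))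
        · calc ‖φ (τ ((fun _ => 1 : Fin Xs.card → M) s) : M)‖
                ≤ 1 * max 1 ‖φ (τ ((fun _ => 1 : Fin Xs.card → M) s) : M)‖ := by
                rw [one_mul]; exact le_max_right _ _
            _ ≤ _ := mul_le_mul_of_nonneg_right (le_max_left _ _)
                (zero_le_one.trans (le_max_left _ _))
      · show ‖φ ((τ (u s₀) : M) - (τ ((fun _ => 1 : Fin Xs.card → M) s₀) : M) : Qb)‖ ≤ _
        rw [hτ1, hτu, hes₀, map_sub, map_one]
        refine hcl.trans ?_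
        refine le_mul_of_one_le_right (by positivity) ?_
        exact one_le_mul_of_one_le_of_one_le (le_max_left _ _) (le_max_left _ _))
  -- the heights
  have hhu : ∀ s, ht (u s : Qb) ≤ 1 := by
    intro s
    obtain ⟨ρ, hρ, hρx⟩ := hXmem (e s) (e s).2
    obtain ⟨h1, h2⟩ := hlift ρ hρ
    have h3 := hht' (σ * ρ) h1 h2
    have h4 : (u s : Qb) = ((σ * ρ) β / β) ^ (p ^ k) := by
      show ((e s : Qb) / β) ^ (p ^ k) = _
      rw [hρx]
      rfl
    rw [h4, Pool.Agent.H58B.ht_pow]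
    calc ((p ^ k : ℕ) : ℝ) * ht ((σ * ρ) β / β) ≤ ((p ^ k : ℕ) : ℝ) * c :=
          mul_le_mul_of_nonneg_left h3 (by positivity)
      _ = 1 := by
        rw [hc]
        push_cast
        exact mul_inv_cancel₀ (by positivity)
  have hsum : ∑ s, (ht (u s : Qb) + ht ((fun _ => 1 : Fin Xs.card → M) s : Qb) + Real.log 2) ≤
      D * (1 + Real.log 2) := by
    calc ∑ s, (ht (u s : Qb) + ht ((fun _ => 1 : Fin Xs.card → M) s : Qb) + Real.log 2)
        ≤ ∑ _s : Fin Xs.card, (1 + Real.log 2) := by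
          apply Finset.sum_le_sum
          intro s _
          have h5 : ht ((fun _ => 1 : Fin Xs.card → M) s : Qb) = 0 := Pool.Agent.H58R.ht_one
          rw [h5, add_zero]
          exact add_le_add_left (hhu s) _
      _ = (Xs.card : ℝ) * (1 + Real.log 2) := by
          rw [Finset.sum_const, Finset.card_univ, Fintype.card_fin, nsmul_eq_mul]
      _ ≤ D * (1 + Real.log 2) := by
          apply mul_le_mul_of_nonneg_right _ (by positivity)
          exact_mod_cast hXcard
  have hlogN : -Real.log (((p : ℝ) ^ N)⁻¹) = N * Real.log p := by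
    rw [Real.log_inv, neg_neg, Real.log_pow]
  rw [hlogN] at hmain
  have hMpos : 0 < finrank ℚ M := finrank_pos
  have hTpos : 0 < T.card := by
    rcases Nat.eq_zero_or_pos T.card with h0 | h0
    · rw [h0, zero_mul] at hTcard
      omega
    · exact h0
  have h6 : (finrank ℚ M : ℝ) ≤ (T.card : ℝ) * (κ * m : ℕ) := by exact_mod_cast hTcard
  have h7 : (T.card : ℝ) * (N * Real.log p) ≤
      ((T.card : ℝ) * (κ * m : ℕ)) * (D * (1 + Real.log 2)) := by
    refine hmain.trans ?_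
    calc (finrank ℚ M : ℝ) * ∑ s, (ht (u s : Qb) +
          ht ((fun _ => 1 : Fin Xs.card → M) s : Qb) + Real.log 2)
        ≤ (finrank ℚ M : ℝ) * (D * (1 + Real.log 2)) :=
          mul_le_mul_of_nonneg_left hsum (Nat.cast_nonneg _)
      _ ≤ _ := mul_le_mul_of_nonneg_right h6 (by positivity)
  rw [mul_assoc] at h7
  have h8 := le_of_mul_le_mul_left h7 (by exact_mod_cast hTpos)
  linarith

end Pool.Agent.W369.RK
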