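import Mathlib
import Pool.Agent.H54.G.W237.RK.Gal
import Pool.Agent.H54.G.W237.RK.LevFin

set_option autoImplicit false

/-!
# The cyclotomic step
-/

namespace Pool.Agent.W369.RK

open Polynomial IntermediateField Module
open Pool.Agent.H58P (Qb ht qb_isIntegral)
open Pool.Agent.W237.RK

/-- an automorphism acts on a root of unity by a power -/
lemma tor_pow (σ : Aut) (x : Qb) (hx : Tor x) : ∃ b : ℕ, σ x = x ^ b := by
  obtain ⟨n, hn, hxn⟩ := hx
  have hfo : IsOfFinOrder x := isOfFinOrder_iff_pow_eq_one.mpr ⟨n, hn, hxn⟩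
  have hprim : IsPrimitiveRoot x (orderOf x) := IsPrimitiveRoot.orderOf x
  have hne : NeZero (orderOf x) := ⟨(orderOf_pos_iff.mpr hfo).ne'⟩
  have h1 : (σ x) ^ (orderOf x) = 1 := by rw [← map_pow, pow_orderOf_eq_one, map_one]
  obtain ⟨i, -, hi⟩ := hprim.eq_pow_of_pow_eq_one h1
  exact ⟨i, hi.symm⟩

/-- decomposition of a root of unity -/
lemma root_decomp (q M' : ℕ) (hq : 0 < q) (hM' : 0 < M') (hcop : Nat.Coprime M' q) (ζ x : Qb)
    (hζ : IsPrimitiveRoot ζ q)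
    (hx : x ^ (q * M') = 1) : ∃ (r : ℕ) (y : Qb), y ^ M' = 1 ∧ x = ζ ^ r * y := by
  have hne : NeZero q := ⟨hq.ne'⟩
  have h1 : (x ^ M') ^ q = 1 := by rw [← pow_mul, mul_comm, hx]
  obtain ⟨s, -, hs⟩ := hζ.eq_pow_of_pow_eq_one h1
  obtain ⟨w, hw⟩ := Nat.exists_mul_mod_eq_of_coprime s hcop hq.ne'
  have hx0 : x ≠ 0 := by
    rintro rfl
    rw [zero_pow (Nat.mul_pos hq hM').ne'] at hx
    exact zero_ne_one hx
  have hζ0 : ζ ≠ 0 := hζ.ne_zero hq.ne'
  refine ⟨w, x / ζ ^ w, ?_, ?_⟩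
  · rw [div_pow, ← pow_mul, ← hs]
    rw [div_eq_one_iff_eq (pow_ne_zero _ hζ0)]
    rw [hζ.eq_orderOf] at hw
    have h2 : ζ ^ (M' * w) = ζ ^ s := by
      rw [← pow_mod_orderOf ζ (M' * w), hw.2, pow_mod_orderOf]
    rw [mul_comm w M', h2]
  · field_simp

/-- conditions to fix a level -/
lemma fix_lev (K : GF) (Γ : Subgroup Qbˣ) (p i M' R : ℕ) (hp : p.Prime) (hM' : ¬ p ∣ M')
    (ζ : Qb) (hζ : IsPrimitiveRoot ζ (p ^ i)) (σ : Aut)
    (h : Fix (lev K Γ (p ^ (i - 1) * M') R) σ) (hσζ : σ ζ = ζ) :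
    Fix (lev K Γ (p ^ i * M') R) σ := by
  have hM'0 : 0 < M' := by
    rcases Nat.eq_zero_or_pos M' with h0 | h0
    · rw [h0] at hM'
      exact absurd (dvd_zero p) hM'
    · exact h0
  have hcop : Nat.Coprime M' (p ^ i) := by
    apply Nat.Coprime.pow_right
    exact ((Nat.Prime.coprime_iff_not_dvd hp).mpr hM').symm
  -- the fixed field
  have hle : lev K Γ (p ^ i * M') R ≤ IntermediateField.fixedField (Subgroup.zpowers σ) := by
    have hfix : ∀ x : Qb, σ x = x → x ∈ IntermediateField.fixedField (Subgroup.zpowers σ) := by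
      intro x hx
      rw [IntermediateField.mem_fixedField_iff]
      intro f hf
      obtain ⟨z, rfl⟩ := Subgroup.mem_zpowers_iff.mp hf
      have h1 : ∀ n : ℕ, (σ ^ n) x = x := by
        intro n
        induction n with
        | zero => rfl
        | succ n ih => rw [pow_succ, AlgEquiv.mul_apply, hx, ih]
      rcases z with n | n
      · rw [Int.ofNat_eq_natCast, zpow_natCast]
        exact h1 n
      · rw [zpow_negSucc]
        have h2 := h1 (n + 1)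
        calc (σ ^ (n + 1))⁻¹ x = (σ ^ (n + 1))⁻¹ ((σ ^ (n + 1)) x) := by rw [h2]
          _ = x := inv_apply_self _ _
    apply lev_le
    · intro x hx
      exact hfix x (h x (le_lev K Γ _ _ hx))
    · intro x hx
      apply hfix
      obtain ⟨r, y, hy, rfl⟩ := root_decomp (p ^ i) M' (pow_pos hp.pos i) hM'0 hcop ζ x hζ hx
      rw [map_mul, map_pow, hσζ]
      congr 1
      apply h
      apply root_mem_lev
      rw [mul_comm, pow_mul, hy, one_pow]
    · intro y hy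
      exact hfix y (h y (rad_mem_lev K Γ hy))
  intro x hx
  have h1 := hle hx
  rw [IntermediateField.mem_fixedField_iff] at h1
  exact h1 σ (Subgroup.mem_zpowers σ)

/-- two automorphisms agree on a level -/
lemma agree_lev (K : GF) (Γ : Subgroup Qbˣ) (N R : ℕ) (σ τ : Aut)
    (hK : ∀ x ∈ K, σ x = τ x) (h1 : ∀ x : Qb, x ^ N = 1 → σ x = τ x)
    (h2 : ∀ y : Qb, (∃ g ∈ Γ, y ^ R = (g : Qb)) → σ y = τ y) :
    AgreeOn (lev K Γ N R) σ τ := by
  have hle : lev K Γ N R ≤ IntermediateField.fixedField (Subgroup.zpowers (τ⁻¹ * σ)) := by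
    have hfix : ∀ x : Qb, σ x = τ x →
        x ∈ IntermediateField.fixedField (Subgroup.zpowers (τ⁻¹ * σ)) := by
      intro x hx'
      set s : Aut := τ⁻¹ * σ with hs
      have hx : s x = x := by
        rw [hs, AlgEquiv.mul_apply, hx', inv_apply_self]
      rw [IntermediateField.mem_fixedField_iff]
      intro f hf
      obtain ⟨z, rfl⟩ := Subgroup.mem_zpowers_iff.mp hf
      have h1 : ∀ n : ℕ, (s ^ n) x = x := by
        intro n
        induction n with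
        | zero => rfl
        | succ n ih => rw [pow_succ, AlgEquiv.mul_apply, hx, ih]
      rcases z with n | n
      · rw [Int.ofNat_eq_natCast, zpow_natCast]
        exact h1 n
      · rw [zpow_negSucc]
        have h2 := h1 (n + 1)
        calc (s ^ (n + 1))⁻¹ x = (s ^ (n + 1))⁻¹ ((s ^ (n + 1)) x) := by rw [h2]
          _ = x := inv_apply_self _ _
    apply lev_le
    · intro x hx
      exact hfix x (hK x hx)
    · intro x hx
      exact hfix x (h1 x hx)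
    · intro y hy
      exact hfix y (h2 y hy)
  intro x hx
  have h3 := hle hx
  rw [IntermediateField.mem_fixedField_iff] at h3
  have h4 := h3 _ (Subgroup.mem_zpowers (τ⁻¹ * σ))
  rw [AlgEquiv.mul_apply] at h4
  calc σ x = τ (τ⁻¹ (σ x)) := (apply_inv_self _ _).symm
    _ = τ x := by rw [h4]

lemma pow_act (σ : Aut) (x ω : Qb) (h : σ x = ω * x) (hω : σ ω = ω) (j : ℕ) :
    (σ ^ j) x = ω ^ j * x := by
  induction j with
  | zero => simp
  | succ j ih =>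
    rw [pow_succ', AlgEquiv.mul_apply, ih, map_mul, map_pow, hω, h]
    ring

theorem cs : S_GL → S_LT → S_CS := by
  intro hgl hlt p hp φ K Γ hKfd hΓ hΓK D
  have hpp := hp.out
  obtain ⟨B₀, hB₀, hLT⟩ := hlt p φ K Γ hKfd hΓ hΓK 0
  obtain ⟨k, c, hc, hGL⟩ := hgl p φ (finrank ℚ K) 1 D B₀
  refine ⟨B₀ + 3, c, hc, ?_⟩
  intro Finf i n M M' β hni hM hM' hkinf hlevF hNF hβ hD htor hrig hht
  have hM'0 : 0 < M' := by
    rcases Nat.eq_zero_or_pos M' with h0 | h0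
    · rw [h0] at hM'
      exact absurd (dvd_zero p) hM'
    · exact h0
  have hM0 : 0 < M := by
    rcases Nat.eq_zero_or_pos M with h0 | h0
    · rw [h0] at hM
      exact absurd (dvd_zero p) hM
    · exact h0
  have hi3 : 3 ≤ i := by omega
  obtain ⟨σ₀, hσ₀fix, hσ₀mov, hgap⟩ := hLT i i n M M' (by omega) (by omega) le_rfl (by omega)
    hM hM'
  have hmin : min n (i - B₀) = n := by omega
  rw [hmin] at hσ₀fix
  set E := lev K Γ (p ^ i * M') (p ^ n * M) with hE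
  set E' := lev K Γ (p ^ (i - 1) * M') (p ^ n * M) with hE'
  have hK'E' : K ≤ E' := le_lev K Γ _ _
  have hKE : K ≤ E := le_lev K Γ _ _
  have hNE : NormalOver K E := normal_lev K Γ hΓK _ _
  have hNE' : NormalOver K E' := normal_lev K Γ hΓK _ _
  have hE'E : E' ≤ E := by
    apply lev_mono K Γ _ (Nat.mul_pos (pow_pos hpp.pos n) hM0) dvd_rfl
    exact Nat.mul_dvd_mul_right (pow_dvd_pow p (by omega)) M'
  have hEfd : FiniteDimensional ℚ E := finiteDimensional_lev K hKfd Γ hΓ _ _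
    (Nat.mul_pos (pow_pos hpp.pos i) hM'0) (Nat.mul_pos (pow_pos hpp.pos n) hM0)
  have hσ₀K : Fix K σ₀ := fix_mono hK'E' hσ₀fix
  have hKfix : ∀ σ : Aut, AgreeOn E σ σ₀ → Fix K σ := by
    intro σ hσ x hx
    rw [hσ x (hKE hx), hσ₀K x hx]
  -- roots of unity in `E'`
  have hrootE' : ∀ x : Qb, x ^ (p ^ (i - 1)) = 1 → x ∈ E' := by
    intro x hx
    apply root_mem_lev
    rw [pow_mul, hx, one_pow]
  have hrootE'2 : ∀ x : Qb, x ^ (p ^ 2) = 1 → x ∈ E' := by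
    intro x hx
    apply hrootE'
    have h1 : p ^ (i - 1) = p ^ 2 * p ^ (i - 3) := by
      rw [← pow_add]
      congr 1
      omega
    rw [h1, pow_mul, hx, one_pow]
  have hrootE'1 : ∀ x : Qb, x ^ p = 1 → x ∈ E' := by
    intro x hx
    apply hrootE'2
    rw [pow_two, pow_mul, hx, one_pow]
  -- conjugates of `σ₀`
  have hconj : ∀ τ : Aut, Fix K τ → AgreeOn E (τ * σ₀ * τ⁻¹) σ₀ := by
    intro τ hτ
    apply agree_lev
    · intro x hx
      show τ (σ₀ (τ⁻¹ x)) = σ₀ x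
      rw [fix_inv hτ x hx, hσ₀K x hx, hτ x hx]
    · intro x hx
      show τ (σ₀ (τ⁻¹ x)) = σ₀ x
      have hxt : Tor x := ⟨p ^ i * M', Nat.mul_pos (pow_pos hpp.pos i) hM'0, hx⟩
      obtain ⟨a, ha⟩ := tor_pow τ⁻¹ x hxt
      obtain ⟨b, hb⟩ := tor_pow σ₀ x hxt
      have h1 : σ₀ (τ⁻¹ x) = (τ⁻¹ x) ^ b := by
        rw [ha, map_pow, hb, ← pow_mul, ← pow_mul, mul_comm]
      rw [h1, map_pow, apply_inv_self, hb]
    · intro y hy
      show τ (σ₀ (τ⁻¹ y)) = σ₀ y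
      have h1 : y ∈ E' := rad_mem_lev K Γ hy
      rw [hσ₀fix _ (hNE' _ (fix_inv hτ) y h1), hσ₀fix y h1, apply_inv_self]
  -- the descent step
  have horb : (orb E β).ncard ≤ D := by
    rw [orb_eq_of_rigid hlevF hrig]
    exact hD
  obtain ⟨st, hstK, hstE, hstβ⟩ := hGL K E σ₀ σ₀ β {σ₀} hKfd le_rfl hEfd hKE hNE hσ₀K hσ₀K hgap
    (by rw [Finset.card_singleton])
    (fun τ hτ => ⟨σ₀, Finset.mem_singleton_self _, hconj τ hτ⟩)
    ⟨1, fix_one K, hconj 1 (fix_one K)⟩ hβ horb (fun σ' h1 _ => hht σ' h1)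
  set ξ := st β / β with hξ
  have hstβ' : st β = ξ * β := by rw [hξ]; field_simp
  have hξk : ξ ^ (p ^ k) = 1 := by
    rw [hξ, div_pow, hstβ, div_self (pow_ne_zero _ hβ)]
  have hξtor : Tor ξ := ⟨p ^ k, pow_pos hpp.pos k, hξk⟩
  have hξ0 : ξ ≠ 0 := hξtor.ne_zero
  have htorF : ∀ x : Qb, Tor x → x ∈ Finf := fun x hx => hkinf (tor_mem_kinf K hx)
  -- (1) `ξ ∈ E`
  have hξE : ξ ∈ E := by
    apply mem_of_fix
    intro κ hκ
    obtain ⟨ρ, hρ, hρβ⟩ := hrig (st⁻¹ * κ * st) (fix_conj' hNE hstK hκ)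
    obtain ⟨ρ'', hρ'', hρ''β⟩ := hrig κ hκ
    set ρ' := st * ρ * st⁻¹ with hρ'
    have hρ'F : Fix Finf ρ' := fix_conj hNF hstK hρ
    have h1 : κ (st β) = ξ * ρ' β := by
      have h2 : κ (st β) = st ((st⁻¹ * κ * st) β) := by
        show κ (st β) = st (st⁻¹ (κ (st β)))
        rw [apply_inv_self]
      rw [h2, hρβ]
      have h3 : st (ρ β) = ρ' (st β) := by
        show st (ρ β) = st (ρ (st⁻¹ (st β)))
        rw [inv_apply_self]
      rw [h3, hstβ', map_mul, hρ'F ξ (htorF ξ hξtor)]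
    have h4 : κ (st β) = κ ξ * ρ'' β := by
      rw [hstβ', map_mul, hρ''β]
    have h5 : ξ * ρ' β = κ ξ * ρ'' β := by rw [← h1, h4]
    have hκξ : Tor (κ ξ) := hξtor.map κ
    have h6 : (ρ''⁻¹ * ρ') β = (κ ξ / ξ) * β := by
      have h7 : ρ''⁻¹ (ξ * ρ' β) = ρ''⁻¹ (κ ξ * ρ'' β) := by rw [h5]
      rw [map_mul, map_mul, fix_inv hρ'' ξ (htorF ξ hξtor), fix_inv hρ'' _ (htorF _ hκξ),
        inv_apply_self] at h7
      show ρ''⁻¹ (ρ' β) = _
      field_simp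
      rw [mul_comm, h7]
    have h8 := htor (ρ''⁻¹ * ρ') (fix_mul (fix_inv hρ'') hρ'F) (by
      rw [h6, mul_div_assoc, div_self hβ, mul_one]
      exact hκξ.div hξtor)
    rw [h8] at h6
    have h9 : κ ξ / ξ = 1 := by
      have h10 : (κ ξ / ξ) * β = 1 * β := by rw [← h6, one_mul]
      exact mul_right_cancel₀ hβ h10
    rwa [div_eq_one_iff_eq hξ0] at h9
  -- `σ₀ ^ p` is trivial on `E`
  have hpw : ∀ x : Qb, x ^ (p ^ i) = 1 → ∃ ω : Qb, ω ^ p = 1 ∧ σ₀ x = ω * x := by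
    intro x hx
    have hx0 : x ≠ 0 := by
      rintro rfl
      rw [zero_pow (pow_pos hpp.pos i).ne'] at hx
      exact zero_ne_one hx
    refine ⟨σ₀ x / x, ?_, by field_simp⟩
    rw [div_pow, ← map_pow, hσ₀fix (x ^ p), div_self (pow_ne_zero _ hx0)]
    apply hrootE'
    rw [← pow_mul, ← pow_succ', show i - 1 + 1 = i by omega, hx]
  have hζex : ∃ ζ : Qb, IsPrimitiveRoot ζ (p ^ i) := by
    have : NeZero ((p ^ i : ℕ) : Qb) := ⟨by exact_mod_cast (pow_pos hpp.pos i).ne'⟩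
    exact HasEnoughRootsOfUnity.exists_primitiveRoot Qb (p ^ i)
  obtain ⟨ζ, hζ⟩ := hζex
  have hζ0 : ζ ≠ 0 := hζ.ne_zero (pow_pos hpp.pos i).ne'
  have hζE : ζ ∈ E := by
    apply root_mem_lev
    rw [pow_mul, hζ.pow_eq_one, one_pow]
  obtain ⟨η, hηp, hη⟩ := hpw ζ hζ.pow_eq_one
  have hη1 : η ≠ 1 := by
    intro h
    rw [h, one_mul] at hη
    exact hσ₀mov ζ hζ hη
  have hηfix : σ₀ η = η := hσ₀fix η (hrootE'1 η hηp)
  have hηprim : IsPrimitiveRoot η p := by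
    have h1 : orderOf η = p := orderOf_eq_prime hηp hη1
    rw [← h1]
    exact IsPrimitiveRoot.orderOf η
  have hσ₀p : Fix E (σ₀ ^ p) := by
    apply fix_lev K Γ p i M' _ hpp hM' ζ hζ
    · exact fix_pow hσ₀fix p
    · rw [pow_act σ₀ ζ η hη hηfix, hηp, one_mul]
  have hstpow : ∀ j : ℕ, AgreeOn E (st ^ j) (σ₀ ^ j) := by
    intro j
    induction j with
    | zero => intro x _; rfl
    | succ j ih =>
      intro x hx
      rw [pow_succ, pow_succ, AlgEquiv.mul_apply, AlgEquiv.mul_apply, hstE x hx]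
      exact ih _ (hNE σ₀ hσ₀K x hx)
  have hstp : Fix E (st ^ p) := by
    intro x hx
    rw [hstpow p x hx, hσ₀p x hx]
  -- (2) `ξ ^ (p ^ i) = 1`
  have hξi : ξ ^ (p ^ i) = 1 := by
    by_contra hcon
    obtain ⟨a, -, ha⟩ := (Nat.dvd_prime_pow hpp).mp (orderOf_dvd_of_pow_eq_one hξk)
    have hai : i + 1 ≤ a := by
      by_contra hlt'
      apply hcon
      apply orderOf_dvd_iff_pow_eq_one.mp
      rw [ha]
      exact pow_dvd_pow p (by omega)
    have hprimξ : IsPrimitiveRoot ξ (p ^ a) := by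
      rw [← ha]
      exact IsPrimitiveRoot.orderOf ξ
    set ζ' := ξ ^ (p ^ (a - (i + 1))) with hζ'
    have hζ'prim : IsPrimitiveRoot ζ' (p ^ (i + 1)) := by
      apply hprimξ.pow (pow_pos hpp.pos a)
      rw [← pow_add]
      congr 1
      omega
    have hζ'E : ζ' ∈ E := pow_mem hξE _
    have hζ'0 : ζ' ≠ 0 := pow_ne_zero _ hξ0
    have h1 : IsPrimitiveRoot (ζ' ^ p) (p ^ i) := by
      apply hζ'prim.pow (pow_pos hpp.pos _)
      rw [pow_succ']
    set ω := σ₀ ζ' / ζ' with hω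
    have hωζ' : σ₀ ζ' = ω * ζ' := by rw [hω]; field_simp
    have h2 : ω ^ (p ^ 2) = 1 := by
      rw [hω, div_pow, ← map_pow, hσ₀fix (ζ' ^ (p ^ 2)), div_self (pow_ne_zero _ hζ'0)]
      apply hrootE'
      rw [← pow_mul, ← pow_add, show 2 + (i - 1) = i + 1 by omega, hζ'prim.pow_eq_one]
    have h3 : ω ^ p ≠ 1 := by
      intro h
      apply hσ₀mov _ h1
      rw [map_pow, hωζ', mul_pow, h, one_mul]
    have h4 : (σ₀ ^ p) ζ' = ω ^ p * ζ' := pow_act σ₀ ζ' ω hωζ' (hσ₀fix ω (hrootE'2 ω h2)) p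
    rw [hσ₀p ζ' hζ'E] at h4
    apply h3
    have h5 : ω ^ p * ζ' = 1 * ζ' := by rw [← h4, one_mul]
    exact mul_right_cancel₀ hζ'0 h5
  -- (3) `ξ ^ p = 1`
  obtain ⟨θ, hθp, hθ⟩ := hpw ξ hξi
  have hθfix : σ₀ θ = θ := hσ₀fix θ (hrootE'1 θ hθp)
  have hθE : θ ∈ E := hE'E (hrootE'1 θ hθp)
  have hstξ : st ξ = θ * ξ := by rw [hstE ξ hξE, hθ]
  have hstθ : st θ = θ := by rw [hstE θ hθE, hθfix]
  have hstj : ∀ j : ℕ, (st ^ j) β = θ ^ (j.choose 2) * ξ ^ j * β := by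
    intro j
    induction j with
    | zero => simp
    | succ j ih =>
      rw [pow_succ', AlgEquiv.mul_apply, ih, map_mul, map_mul, map_pow, map_pow, hstθ, hstξ,
        hstβ', Nat.choose_succ_succ' j 1, Nat.choose_one_right]
      ring
  have h3 : θ ^ (p.choose 2) * ξ ^ p = 1 := by
    obtain ⟨ρ, hρ, hρβ⟩ := hrig (st ^ p) hstp
    have h1 : ρ β = θ ^ (p.choose 2) * ξ ^ p * β := by rw [← hρβ, hstj]
    have h2 := htor ρ hρ (by
      rw [h1, mul_div_assoc, div_self hβ, mul_one]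
      refine ⟨p ^ (i + 1), pow_pos hpp.pos _, ?_⟩
      rw [mul_pow, ← pow_mul, ← pow_mul]
      have e1 : p.choose 2 * p ^ (i + 1) = p * (p.choose 2 * p ^ i) := by ring
      have e2 : p * p ^ (i + 1) = p ^ i * (p * p) := by ring
      rw [e1, e2, pow_mul, hθp, one_pow, pow_mul, hξi, one_pow, one_mul])
    rw [h2] at h1
    have h5 : 1 * β = θ ^ (p.choose 2) * ξ ^ p * β := by rw [← h1, one_mul]
    exact (mul_right_cancel₀ hβ h5).symm
  have h4 : ξ ^ (p ^ 2) = 1 := by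
    have h5 : (θ ^ (p.choose 2) * ξ ^ p) ^ p = 1 := by rw [h3, one_pow]
    rw [mul_pow, ← pow_mul, mul_comm (p.choose 2) p, pow_mul, hθp, one_pow, one_mul,
      ← pow_mul] at h5
    rw [pow_two]
    exact h5
  have hθ1 : θ = 1 := by
    have h5 := hσ₀fix ξ (hrootE'2 ξ h4)
    rw [hθ] at h5
    have h6 : θ * ξ = 1 * ξ := by rw [h5, one_mul]
    exact mul_right_cancel₀ hξ0 h6
  have hξp : ξ ^ p = 1 := by
    rw [hθ1, one_pow, one_mul] at h3
    exact h3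
  -- (4)
  have hnep : NeZero p := ⟨hpp.ne_zero⟩
  obtain ⟨a, -, ha⟩ := hηprim.eq_pow_of_pow_eq_one hξp
  set γ := ζ ^ a with hγ
  have hγ0 : γ ≠ 0 := pow_ne_zero _ hζ0
  have hγE : γ ∈ E := pow_mem hζE _
  have hζtor : Tor ζ := ⟨p ^ i, pow_pos hpp.pos i, hζ.pow_eq_one⟩
  have hγtor : Tor γ := hζtor.pow a
  have hσ₀γ : σ₀ γ = ξ * γ := by
    rw [hγ, map_pow, hη, mul_pow, ha]
  have hstβγ : st (β / γ) = β / γ := by
    rw [map_div₀, hstβ', hstE γ hγE, hσ₀γ]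
    field_simp
  refine ⟨γ, hγtor, ?_⟩
  -- (5)
  intro κ hκ
  have hκζ : ∃ j : ℕ, κ ζ = η ^ j * ζ := by
    have h5 : (κ ζ / ζ) ^ p = 1 := by
      rw [div_pow, ← map_pow, hκ (ζ ^ p), div_self (pow_ne_zero _ hζ0)]
      apply hrootE'
      rw [← pow_mul, ← pow_succ', show i - 1 + 1 = i by omega, hζ.pow_eq_one]
    obtain ⟨j, -, hj⟩ := hηprim.eq_pow_of_pow_eq_one h5
    refine ⟨j, ?_⟩
    rw [hj]
    field_simp
  obtain ⟨j, hj⟩ := hκζ
  have hκ'E : Fix E ((st ^ j)⁻¹ * κ) := by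
    apply fix_lev K Γ p i M' _ hpp hM' ζ hζ
    · intro x hx
      show (st ^ j)⁻¹ (κ x) = x
      have h5 : (st ^ j) x = x := by
        rw [hstpow j x (hE'E hx)]
        exact fix_pow hσ₀fix j x hx
      rw [hκ x hx]
      calc (st ^ j)⁻¹ x = (st ^ j)⁻¹ ((st ^ j) x) := by rw [h5]
        _ = x := inv_apply_self _ _
    · show (st ^ j)⁻¹ (κ ζ) = ζ
      have h5 : (st ^ j) ζ = κ ζ := by
        rw [hstpow j ζ hζE, pow_act σ₀ ζ η hη hηfix, hj]
      rw [← h5, inv_apply_self]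
  obtain ⟨ρ, hρ, hρβ⟩ := hrig _ hκ'E
  refine ⟨st ^ j * ρ * (st ^ j)⁻¹, fix_conj hNF (fix_pow hstK j) hρ, ?_⟩
  have h5 : ((st ^ j)⁻¹ * κ) (β / γ) = ρ (β / γ) := by
    rw [map_div₀, map_div₀, hρβ, hκ'E γ hγE, hρ γ (htorF γ hγtor)]
  have h6 : (st ^ j) (β / γ) = β / γ := by
    clear h5 hρβ hκ'E hj
    induction j with
    | zero => rfl
    | succ j ih => rw [pow_succ, AlgEquiv.mul_apply, hstβγ, ih]
  have h7 : (st ^ j)⁻¹ (β / γ) = β / γ := by
    calc (st ^ j)⁻¹ (β / γ) = (st ^ j)⁻¹ ((st ^ j) (β / γ)) := by rw [h6]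
      _ = β / γ := inv_apply_self _ _
  show κ (β / γ) = (st ^ j) (ρ ((st ^ j)⁻¹ (β / γ)))
  rw [h7, ← h5]
  show κ (β / γ) = (st ^ j) ((st ^ j)⁻¹ (κ (β / γ)))
  rw [apply_inv_self]

end Pool.Agent.W369.RK
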